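import Pool.Agent.H79.WC.Dev
import Pool.Agent.H79.L.W5h68_BT_Cls

/-!
# From products of varieties of dimension at most `n` to products of affine schemes
-/

set_option autoImplicit false

open CategoryTheory AlgebraicGeometry TensorProduct Pool.Agent.Y116.UV Pool.Agent.W5h68.PJ
  Pool.Agent.W5h68.BT Pool.Agent.H89.Dev

namespace Pool.Agent.H79.WC

variable {k : Type} [Field k] {P : Sch k → Prop} (hP : ClS k P)

include hP in
lemma cls_pr {Z : Sch k} (hZ : FT True Z) : ClS k fun X => P (pr X Z) where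
  iso hX e h := hP.iso (ft_pr hX hZ) (prIso e Z) h
  total i j hX ht h1 h2 :=
    hP.total (prMap i Z) (prMap j Z) (ft_pr hX hZ) (prMap_triple ht Z) h1 h2
  opened i j hX ht h1 h2 :=
    hP.opened (prMap i Z) (prMap j Z) (ft_pr hX hZ) (prMap_triple ht Z) h1 h2
  closed i j hX ht h1 h2 :=
    hP.closed (prMap i Z) (prMap j Z) (ft_pr hX hZ) (prMap_triple ht Z) h1 h2
  empty := of_empty hP _ (pr_empty _ _)

/-- finite products of schemes of the class of dimension at most `n` -/
inductive IsPr (Q : Sch k → Prop) (n : ℕ) : Sch k → Prop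
  | point : IsPr Q n (aff k k)
  | mul {X Y : Sch k} (hX : Q X) (hn : topologicalKrullDim X.left ≤ n) (hY : IsPr Q n Y) :
      IsPr Q n (pr X Y)

lemma isPr_ft {Q : Sch k → Prop} (hQ : IsClass Q) {n : ℕ} {Y : Sch k} (h : IsPr Q n Y) :
    FT True Y := by
  induction h with
  | point => exact ft_aff True
  | mul hX _ _ ih => exact ft_pr (hQ.ft hX) ih

include hP in
/-- From products of varieties of dimension at most `n` to products of affine schemes of dimension at
most `n`. -/
theorem p_isProd {Q : Sch k → Prop} (hQ : IsClass Q) {n : ℕ} (hM : ModelsIn Q n)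
    (h : ∀ Y, IsPr Q n Y → P Y) {A : Type} [CommRing A] [Algebra k A] (hA : IsProd k n A) :
    P (aff k A) := by
  have key : ∀ Y, IsPr Q n Y → P (pr (aff k A) Y) := by
    induction hA with
    | base =>
      intro Y hY
      obtain ⟨e⟩ := prPoint Y
      exact hP.iso (isPr_ft hQ hY) ⟨e.symm⟩ (h Y hY)
    | @mul A B _ _ _ _ _ hA hB ih =>
      intro Y hY
      have hB' := isProd_ft hB
      have hYf := isPr_ft hQ hY
      have hZ : FT True (pr (aff k B) Y) := ft_pr (ft_aff True) hYf
      -- the predicate of the first factor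
      have h1 : P (pr (aff k A) (pr (aff k B) Y)) := by
        refine devissage (cls_pr hP hZ) hQ hM (fun X hX hn => ?_) (aff k A) (ft_aff True) ?_
        · have h2 := ih _ (IsPr.mul hX hn hY)
          have hXf := hQ.ft hX
          refine hP.iso (ft_pr (ft_aff True) (ft_pr hXf hYf)) ?_ h2
          obtain ⟨e1⟩ := prAssoc (aff k B) X Y
          obtain ⟨e2⟩ := prIso (prSymm (aff k B) X) Y
          obtain ⟨e3⟩ := prAssoc X (aff k B) Y
          exact ⟨e1.symm ≪≫ e2 ≪≫ e3⟩
        · rw [Pool.Agent.Z125.UN.topDim_aff]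
          exact hA
      refine hP.iso (ft_pr (ft_aff True) hZ) ?_ h1
      obtain ⟨e1⟩ := prAssoc (aff k A) (aff k B) Y
      obtain ⟨e2⟩ := prIso ⟨prAff (k := k) A B⟩ Y
      exact ⟨e1.symm ≪≫ e2⟩
  have hA' := isProd_ft hA
  have h1 := key _ IsPr.point
  refine hP.iso (ft_pr (ft_aff True) (ft_aff True)) ?_ h1
  obtain ⟨e1⟩ := prSymm (aff k A) (aff k k)
  obtain ⟨e2⟩ := prPoint (aff k A)
  exact ⟨e1 ≪≫ e2⟩

end Pool.Agent.H79.WC
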