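import Pool.Agent.H79.WC.Null
import Pool.Agent.H79.WC.Prod
import Pool.Agent.H89.Dev.Torus

/-!
# The schemes with null weight complexes
-/

set_option autoImplicit false
set_option linter.unusedSectionVars false

open CategoryTheory Limits Pretriangulated MonoidalCategory AlgebraicGeometry TensorProduct
  Pool.Agent.Y116.UV Pool.Agent.Z125.UN Pool.Agent.W5h68.SP Pool.Agent.W5h68.PJ Pool.Agent.W5h68.BT
  Pool.Agent.H89.Dev

universe v u v' u'

namespace Pool.Agent.H79.WC

variable {k : Type} [Field k] {𝒜 : Type u} [Category.{v} 𝒜] [Preadditive 𝒜] [HasZeroObject 𝒜]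
  [HasBinaryBiproducts 𝒜] [MonoidalCategory 𝒜] [MonoidalPreadditive 𝒜] {V : Cls 𝒜}
  {T : ℤ → 𝒜} {W : Sch k → HomotopyCategory 𝒜 (ComplexShape.up ℤ)}

/-- The schemes with null weight complexes have the closure properties. -/
theorem bnd_wc (hT : ∀ (j : ℤ) (A : 𝒜), V.prop A → V.prop (A ⊗ T j)) (h0 : V.prop (T 0))
    (hW : IsWeightComplex T W) : Bnd True fun X : Sch k => Null V.prop (W X).as where
  iso hX e h := by
    obtain ⟨e'⟩ := hW.iso hX e
    exact h.of_iso e'
  total i j hX ht hZ hU := by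
    obtain ⟨f, g, h, h'⟩ := hW.localization i j hX ht
    exact (null_two _ h').2.1 hZ hU
  opened i j hX ht hZ hX' := by
    obtain ⟨f, g, h, h'⟩ := hW.localization i j hX ht
    exact (null_two _ h').1 hZ hX'
  closed i j hX ht hX' hU := by
    obtain ⟨f, g, h, h'⟩ := hW.localization i j hX ht
    exact (null_two _ h').2.2 hX' hU
  space n := by
    have h1 : Null V.prop (W (aff k k)).as := by
      obtain ⟨e⟩ := hW.point
      exact (null_cpx.mpr h0).of_iso e.symm
    obtain ⟨⟨e⟩, -⟩ := hW.bundle k (n + 1) (f1 k n) (aff k k)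
      ⟨𝟙 _, inferInstance, range_id n⟩
    have h2 : Null V.prop (W (aff k (Jou (f1 k n)))).as := (h1.map _ (hT _)).of_iso e.symm
    obtain ⟨e'⟩ := hW.iso (X := aff k (Jou (f1 k n))) (Y := aff k (MvPolynomial (Fin n) k))
      (ft_aff True) ⟨(affIso (jouOne k n)).symm⟩
    exact h2.of_iso e'
  jouanolou A _ _ _ m f U j hj hr h := by
    obtain ⟨-, ⟨e⟩⟩ := hW.bundle A m f U ⟨j, hj, hr⟩
    exact (h.map _ (hT _)).of_iso e.symm
  torus A _ _ _ h := by
    obtain ⟨n, s, r, hs⟩ := hW.torus A
    exact Null.of_retract s r hs (h.shift n)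
  bundle A _ _ _ m f U j hj hr h := by
    obtain ⟨⟨e⟩, -⟩ := hW.bundle A m f U ⟨j, hj, hr⟩
    exact (h.map _ (hT _)).of_iso e.symm

/-- The closure under closed-open decompositions. -/
lemma cls_of_bnd {P : Sch k → Prop} (hP : Bnd True P) : ClS k P where
  iso hX e h := hP.iso hX e h
  total i j hX ht h1 h2 := hP.total i j hX ht h1 h2
  opened i j hX ht h1 h2 := hP.opened i j hX ht h1 h2
  closed i j hX ht h1 h2 := hP.closed i j hX ht h1 h2
  empty := p_empty hP PUnit.{1} inferInstance

/-- **The schemes of the class `Built k n`**, from the products of varieties of dimension at most `n`. -/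
theorem built_null (hT : ∀ (j : ℤ) (A : 𝒜), V.prop A → V.prop (A ⊗ T j)) (h0 : V.prop (T 0))
    (hW : IsWeightComplex T W) (hc : HasCoverings W) {Q : Sch k → Prop} (hQ : IsClass Q) {n : ℕ}
    (hM : ModelsIn Q n)
    (hP : ∀ Y, IsPr Q n Y → Null V.prop (W Y).as) {X : Sch k}
    (h : Pool.Agent.W5h68.BT.Built k n X) : Null V.prop (W X).as := by
  have hB := bnd_wc hT h0 hW
  have hQ1 := Cl.of_bnd hB
  have hQ' : ClB k fun A => Null V.prop (W (aff k A)).as :=
    { iso := hQ1.iso
      total := hQ1.total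
      opened := hQ1.opened
      closed := hQ1.closed
      poly := hQ1.poly
      cyc := fun {A} _ _ _ d u hd hu h => by
        obtain ⟨s, r, hs⟩ := hc A d u hd hu
        exact Null.of_retract s r hs h
      torus := fun {A} _ _ _ h => hB.torus A h }
  have hP' : ∀ (A : Type) [CommRing A] [Algebra k A], IsProd k n A →
      Null V.prop (W (aff k A)).as := fun A _ _ hA =>
    p_isProd (P := fun X : Sch k => Null V.prop (W X).as) (cls_of_bnd hB) hQ hM hP hA
  induction h with
  | aff h => exact aff_of_prod hQ' hP' h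
  | iso hX e h ih => exact hB.iso hX ⟨e⟩ ih
  | total i j hX ht hZ hU ih1 ih2 => exact hB.total i j hX ht ih1 ih2
  | opened i j hX ht hZ h ih1 ih2 => exact hB.opened i j hX ht ih1 ih2
  | closed i j hX ht h hU ih1 ih2 => exact hB.closed i j hX ht ih1 ih2

end Pool.Agent.H79.WC
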