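import Pool.Agent.H79.WC.Pr
import Pool.Agent.H89.Dev.Defs
import Pool.Agent.H79.L.W5h68_SP_CycDefs

/-!
# Weight complexes, and motives for which the operators Lambda are algebraic: definitions
-/

set_option autoImplicit false

open CategoryTheory Limits MonoidalCategory Pretriangulated AlgebraicGeometry Pool.Agent.Y116.UV
  Pool.Agent.W5h68.SP

universe v u v' u'

namespace Pool.Agent.H79.WC

/-! ### Complexes modulo a class of objects -/

section

variable {𝒜 : Type u} [Category.{v} 𝒜] [Preadditive 𝒜]

/-- The morphism `f` factors through an object with the property `V`. -/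
def Factors (V : 𝒜 → Prop) {A B : 𝒜} (f : A ⟶ B) : Prop :=
  ∃ (C : 𝒜) (g : A ⟶ C) (h : C ⟶ B), V C ∧ g ≫ h = f

/-- The complex `K` is contractible modulo the objects with the property `V`: there are morphisms
`h : K^i → K^(i-1)` such that all morphisms `id - (d h + h d) : K^i → K^i` factor through objects with
the property `V`. -/
def Null (V : 𝒜 → Prop) (K : CochainComplex 𝒜 ℤ) : Prop :=
  ∃ h : ∀ i j : ℤ, K.X i ⟶ K.X j,
    ∀ i, Factors V (𝟙 (K.X i) - (K.d i (i + 1) ≫ h (i + 1) i + h i (i - 1) ≫ K.d (i - 1) i))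

end

section

variable {𝒜 : Type u} [Category.{v} 𝒜] [Preadditive 𝒜] [HasZeroObject 𝒜]

/-- The object `M` of `𝒜` as a complex in degree zero, in the homotopy category. -/
noncomputable def cpx (M : 𝒜) : HomotopyCategory 𝒜 (ComplexShape.up ℤ) :=
  (HomotopyCategory.quotient _ _).obj ((HomologicalComplex.single 𝒜 (ComplexShape.up ℤ) 0).obj M)

end

/-! ### Weight complexes -/

/-- `U` is the complement of the closed subscheme `f = 0` of `Spec A`. -/
def Compl {k : Type} [Field k] {A : Type} [CommRing A] [Algebra k A] {m : ℕ} (f : Fin m → A)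
    (U : Sch k) : Prop :=
  ∃ j : U ⟶ aff k A, IsOpenImmersion j.left ∧
    Set.range j.left = {x : PrimeSpectrum A | ∃ l, f l ∉ x.asIdeal}

section

variable {k : Type} [Field k] {𝒜 : Type u} [Category.{v} 𝒜] [Preadditive 𝒜] [HasZeroObject 𝒜]
  [HasBinaryBiproducts 𝒜] [MonoidalCategory 𝒜] [MonoidalPreadditive 𝒜]

/-- The functor `K ↦ K ⊗ M` on the homotopy category of complexes. -/
noncomputable def tens (M : 𝒜) (K : HomotopyCategory 𝒜 (ComplexShape.up ℤ)) :
    HomotopyCategory 𝒜 (ComplexShape.up ℤ) :=
  ((tensorRight M).mapHomotopyCategory (ComplexShape.up ℤ)).obj K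

/-- `W X` are the weight complexes with compact support (Gillet and Soulé, Bondarko) of the separated
schemes `X` of finite type over `k`, complexes in the category `𝒜` (of Chow motives with rational
coefficients) with the Tate objects `T i`:

* `localization`: the distinguished triangles `W(Z) → W(X) → W(U) → W(Z)[1]` of the closed subschemes
  `Z` of `X` with complement `U`;
* `bundle`: for the affine bundle `Spec A[w_1, …, w_m] / (∑ f_l w_l - 1) → U` with fibre `𝔸^{m-1}`,
  where `U` is the complement of `f = 0` in `Spec A`, the weight complex of the total space is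
  `W(U) ⊗ T (m - 1)`, and `W(U)` is the weight complex of the total space tensored with `T (1 - m)`;
* `torus`: `W(Spec A)` is a direct factor of a shift of `W(Spec A × 𝔾_m)`;
* `point`: `W(Spec k)` is the unit object. -/
structure IsWeightComplex (T : ℤ → 𝒜) (W : Sch k → HomotopyCategory 𝒜 (ComplexShape.up ℤ)) :
    Prop where
  iso : ∀ {X Y : Sch k}, FT True X → Nonempty (X ≅ Y) → Nonempty (W X ≅ W Y)
  localization : ∀ {Z X U : Sch k} (i : Z ⟶ X) (j : U ⟶ X), FT True X → IsTriple i j →
    ∃ (f : W Z ⟶ W X) (g : W X ⟶ W U) (h : W U ⟶ (W Z)⟦(1 : ℤ)⟧),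
      Triangle.mk f g h ∈ distTriang (HomotopyCategory 𝒜 (ComplexShape.up ℤ))
  bundle : ∀ (A : Type) [CommRing A] [Algebra k A] [Algebra.FiniteType k A] (m : ℕ)
    (f : Fin m → A) (U : Sch k), Compl f U →
      Nonempty (W (aff k (Jou f)) ≅ tens (T (m - 1)) (W U)) ∧
      Nonempty (W U ≅ tens (T (1 - m)) (W (aff k (Jou f))))
  torus : ∀ (A : Type) [CommRing A] [Algebra k A] [Algebra.FiniteType k A],
    ∃ (n : ℤ) (s : W (aff k A) ⟶ (W (aff k (LaurentPolynomial A)))⟦n⟧)
      (r : (W (aff k (LaurentPolynomial A)))⟦n⟧ ⟶ W (aff k A)), s ≫ r = 𝟙 _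
  point : Nonempty (W (aff k k) ≅ cpx (T 0))

/-- For the finite flat coverings `Spec A[s] / (s ^ d - u) → Spec A` of degree `d > 0`, `u` a unit, the
weight complex of the base is a direct factor of the weight complex of the covering (rational
coefficients: the composition of the flat pull-back and the push-forward is the multiplication by `d`). -/
def HasCoverings (W : Sch k → HomotopyCategory 𝒜 (ComplexShape.up ℤ)) : Prop :=
  ∀ (A : Type) [CommRing A] [Algebra k A] [Algebra.FiniteType k A] (d : ℕ) (u : A), 0 < d →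
    IsUnit u → ∃ (s : W (aff k A) ⟶ W (aff k (Cyc A d u))) (r : W (aff k (Cyc A d u)) ⟶ W (aff k A)),
      s ≫ r = 𝟙 _

end

/-! ### The Lefschetz standard conjecture -/

section

variable {k : Type} [Field k] {𝒜 : Type u} [Category.{v} 𝒜] [MonoidalCategory 𝒜]

/-- The (homological) Chow motives `h X` and the dimensions of the smooth projective varieties `X` over
`k`, and, for an ample divisor on `X`, the morphisms `L X i : h(X) → h(X)(i)` given by the
correspondences `Δ_*(D ^ i)`, which induce the product with the class of `D ^ i` on the homology. -/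
structure LefschetzData (k : Type) [Field k] {𝒜 : Type u} [Category.{v} 𝒜] [MonoidalCategory 𝒜]
    (T : ℤ → 𝒜) where
  /-- the motive -/
  h : Sch k → 𝒜
  /-- the dimension -/
  dim : Sch k → ℕ
  /-- the powers of the Lefschetz operator -/
  L : ∀ (X : Sch k) (i : ℕ), h X ⟶ h X ⊗ T i

variable {T : ℤ → 𝒜} {𝒢 : Type u'} [Category.{v'} 𝒢]

/-- **The Lefschetz standard conjecture B** for `X`: for every `i ≥ 0` the inverse of the hard Lefschetz
isomorphism `L^i : H_{d+i}(X) → H_{d-i}(X)(i)`, `d = dim X`, is induced by a morphism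
`h(X)(i) → h(X)`, that is, by an algebraic correspondence. (Equivalently, the operator `Λ` is
algebraic.) -/
def StandardB (D : LefschetzData k T) (H : ℤ → 𝒜 ⥤ 𝒢) (X : Sch k) : Prop :=
  ∀ i : ℕ, ∃ g : D.h X ⊗ T i ⟶ D.h X, (H (D.dim X + i)).map (D.L X i ≫ g) = 𝟙 _ ∧
    (H (D.dim X + i)).map (g ≫ D.L X i) = 𝟙 _

/-- **The Lefschetz standard conjecture A** for `X`: if `2 l = d + i`, `d = dim X`, `i ≥ 0`, then the hard
Lefschetz isomorphism `L^i : H_{2 l}(X) → H_{2 l - 2 i}(X)(i)` maps the classes of the algebraic cycles of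
dimension `l` (with rational coefficients) onto the classes of the algebraic cycles of dimension
`l - i`. The cycles of dimension `l` on `X` are the morphisms `T l → h(X)`, those of dimension `l - i` are
the morphisms `T l → h(X)(i)`. -/
def StandardA (D : LefschetzData k T) (H : ℤ → 𝒜 ⥤ 𝒢) (X : Sch k) : Prop :=
  ∀ (i : ℕ) (l : ℤ), 2 * l = D.dim X + i → ∀ z : T l ⟶ D.h X ⊗ T i, ∃ x : T l ⟶ D.h X,
    (H (2 * l)).map (x ≫ D.L X i) = (H (2 * l)).map z

end

section

variable {k : Type} [Field k] {𝒜 : Type u} [Category.{v} 𝒜] [Preadditive 𝒜]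
  [HasBinaryBiproducts 𝒜] [MonoidalCategory 𝒜]

/-- The smallest class of motives which contains the motives with the property `S` and is closed under
direct sums, direct factors and Tate twists. -/
inductive Gen (T : ℤ → 𝒜) (S : 𝒜 → Prop) : 𝒜 → Prop
  | mem (A : 𝒜) (h : S A) : Gen T S A
  | sum (A B : 𝒜) (hA : Gen T S A) (hB : Gen T S B) : Gen T S (A ⊞ B)
  | factor (A B : 𝒜) (s : A ⟶ B) (r : B ⟶ A) (h : s ≫ r = 𝟙 A) (hB : Gen T S B) : Gen T S A
  | twist (A : 𝒜) (j : ℤ) (hA : Gen T S A) : Gen T S (A ⊗ T j)

variable {𝒢 : Type u'} [Category.{v'} 𝒢]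

/-- The motives of the varieties of the class `Q` for which the conjecture B is true. -/
def BMotives {T : ℤ → 𝒜} (D : LefschetzData k T) (H : ℤ → 𝒜 ⥤ 𝒢) (Q : Sch k → Prop) (A : 𝒜) : Prop :=
  ∃ X, Q X ∧ StandardB D H X ∧ A = D.h X

/-- Known facts on the smooth projective varieties `X` (the schemes of the class `Q`) over an algebraically
closed field `k` of characteristic zero, their motives and a Weil (co)homology theory `H`:

* `motive`: the weight complex of `X` is its motive in degree zero;
* `hard`: the hard Lefschetz theorem;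
* `prod`, `point`: products of varieties of the class are in the class, and B is true for the product
  if it is true for the factors (Kleiman); it is true for the point;
* `semisimple`: for every motive `M` in the smallest class of motives which contains the motives of the
  varieties with B and is closed under direct sums, direct factors and Tate twists, the ring of the
  endomorphisms of `M` modulo homological equivalence is (von Neumann) regular; it is even a semisimple
  ring (Kleiman, Jannsen; this uses the Hodge index theorem). -/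
structure IsLefschetz [HasZeroObject 𝒜] {T : ℤ → 𝒜} (D : LefschetzData k T) (H : ℤ → 𝒜 ⥤ 𝒢)
    (Q : Sch k → Prop) (W : Sch k → HomotopyCategory 𝒜 (ComplexShape.up ℤ)) : Prop where
  motive : ∀ X, Q X → Nonempty (W X ≅ cpx (D.h X))
  hard : ∀ X, Q X → ∀ i : ℕ, IsIso ((H (D.dim X + i)).map (D.L X i))
  prod : ∀ X Y, Q X → Q Y → Q (pr X Y) ∧ (StandardB D H X → StandardB D H Y → StandardB D H (pr X Y))
  point : Q (aff k k) ∧ StandardB D H (aff k k)
  semisimple : ∀ M, Gen T (BMotives D H Q) M → ∀ f : M ⟶ M, ∃ g : M ⟶ M,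
    ∀ j, (H j).map (f ≫ g ≫ f) = (H j).map f

end

end Pool.Agent.H79.WC
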