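import Pool.Agent.H79.WC.Bnd

/-!
# The Lefschetz standard conjectures for varieties built from varieties of dimension at most `n`
-/

set_option autoImplicit false
set_option linter.unusedSectionVars false

open CategoryTheory Limits Pretriangulated MonoidalCategory AlgebraicGeometry TensorProduct
  Pool.Agent.Y116.UV Pool.Agent.Z125.UN Pool.Agent.W5h68.SP Pool.Agent.W5h68.PJ Pool.Agent.W5h68.BT
  Pool.Agent.H89.Dev

universe v u v' u'

namespace Pool.Agent.H79.WC

variable {k : Type} [Field k] {𝒜 : Type u} [Category.{v} 𝒜] [Preadditive 𝒜] [HasZeroObject 𝒜]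
  [HasBinaryBiproducts 𝒜] [MonoidalCategory 𝒜] {𝒢 : Type u'} [Category.{v'} 𝒢]
  {T : ℤ → 𝒜} {D : LefschetzData k T} {H : ℤ → 𝒜 ⥤ 𝒢} {Q : Sch k → Prop}
  {W : Sch k → HomotopyCategory 𝒜 (ComplexShape.up ℤ)}

/-- the class of motives -/
def genCls (T : ℤ → 𝒜) (S : 𝒜 → Prop) (hne : ∃ A, S A) : Cls 𝒜 where
  prop := Gen T S
  nonempty := by
    obtain ⟨A, hA⟩ := hne
    exact ⟨A, .mem A hA⟩
  sum A B hA hB := .sum A B hA hB
  retract A B s r h hB := .factor A B s r h hB

/-- The conjecture B for motives generated by varieties with B. -/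
theorem b_of_gen (hL : IsLefschetz D H Q W) {X : Sch k} (hX : Q X)
    (h : Gen T (BMotives D H Q) (D.h X)) : StandardB D H X := by
  intro i
  let N : 𝒜 := D.h X ⊗ T i
  let l : D.h X ⟶ N := D.L X i
  have h1 : Gen T (BMotives D H Q) (D.h X ⊞ N) := .sum _ _ h (.twist _ _ h)
  let f : D.h X ⊞ N ⟶ D.h X ⊞ N := biprod.fst ≫ l ≫ biprod.inr
  obtain ⟨g, hg⟩ := hL.semisimple _ h1 f
  have hiso : IsIso ((H (D.dim X + i)).map l) := hL.hard X hX i
  let g' : N ⟶ D.h X := (biprod.inr : N ⟶ D.h X ⊞ N) ≫ g ≫ biprod.fst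
  have h2 : ∀ j, (H j).map (l ≫ g' ≫ l) = (H j).map l := by
    intro j
    have h3 : l ≫ g' ≫ l = (biprod.inl : D.h X ⟶ D.h X ⊞ N) ≫ (f ≫ g ≫ f) ≫
        (biprod.snd : D.h X ⊞ N ⟶ N) := by
      simp [f, g']
    have h4 : l = (biprod.inl : D.h X ⟶ D.h X ⊞ N) ≫ f ≫ (biprod.snd : D.h X ⊞ N ⟶ N) := by
      simp [f]
    rw [h3, Functor.map_comp, Functor.map_comp, hg j, ← Functor.map_comp, ← Functor.map_comp, ← h4]
  have h5 := h2 (D.dim X + i)
  refine ⟨g', ?_, ?_⟩
  · change (H (D.dim X + i)).map (l ≫ g') = _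
    rw [← cancel_mono ((H (D.dim X + i)).map l), ← Functor.map_comp, Category.id_comp,
      Category.assoc]
    exact h5
  · change (H (D.dim X + i)).map (g' ≫ l) = _
    rw [← cancel_epi ((H (D.dim X + i)).map l), ← Functor.map_comp, Category.comp_id]
    exact h5

/-- B implies A. -/
theorem a_of_b {X : Sch k} (h : StandardB D H X) : StandardA D H X := by
  intro i l hl z
  obtain ⟨g, -, hg⟩ := h i
  refine ⟨z ≫ g, ?_⟩
  rw [Category.assoc, Functor.map_comp, hl, hg, Category.comp_id]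

/-- Products of varieties with B. -/
lemma isPr_b (hL : IsLefschetz D H Q W) {n : ℕ}
    (h : ∀ X, Q X → topologicalKrullDim X.left ≤ n → StandardB D H X) {Y : Sch k}
    (hY : IsPr Q n Y) : Q Y ∧ StandardB D H Y := by
  induction hY with
  | point => exact hL.point
  | @mul X Y hX hn hY ih =>
    obtain ⟨h1, h2⟩ := hL.prod X Y hX ih.1
    exact ⟨h1, h2 (h X hX hn) ih.2⟩

/-- Schemes of dimension at most `n` are in the class `Built k n`. -/
lemma built_of_dim {n : ℕ} {X : Sch k} (hX : FT True X) (hn : topologicalKrullDim X.left ≤ n) :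
    Pool.Agent.W5h68.BT.Built k n X :=
  of_affine_dim (P := Pool.Agent.W5h68.BT.Built k n) built_cls
    (fun A _ _ _ hA => .aff (.dim hA)) X hX hn

variable [MonoidalPreadditive 𝒜]

/-- The weight complexes of the schemes of the class `Built k n`. -/
theorem null_of_b (hW : IsWeightComplex T W) (hc : HasCoverings W) (hQ : IsClass Q) (hL : IsLefschetz D H Q W) {n : ℕ}
    (hM : ModelsIn Q n) (h : ∀ X, Q X → topologicalKrullDim X.left ≤ n → StandardB D H X)
    {X : Sch k} (hX : Pool.Agent.W5h68.BT.Built k n X) :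
    Null (Gen T (BMotives D H Q)) (W X).as := by
  let V : Cls 𝒜 := genCls T (BMotives D H Q) ⟨_, _, hL.point.1, hL.point.2, rfl⟩
  have key : ∀ Y, Q Y → StandardB D H Y → Null V.prop (W Y).as := by
    intro Y hY hB
    obtain ⟨e⟩ := hL.motive Y hY
    exact (null_cpx.mpr (.mem _ ⟨Y, hY, hB, rfl⟩ : V.prop (D.h Y))).of_iso e.symm
  have h0 : V.prop (T 0) := by
    obtain ⟨e⟩ := hW.point
    exact null_cpx.mp ((key _ hL.point.1 hL.point.2).of_iso e)
  refine built_null (V := V) (fun j A hA => .twist A j hA) h0 hW hc hQ hM (fun Y hY => ?_) hX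
  obtain ⟨h1, h2⟩ := isPr_b hL h hY
  exact key Y h1 h2

theorem b_of_null (hL : IsLefschetz D H Q W) {X : Sch k} (hX : Q X)
    (h : Null (Gen T (BMotives D H Q)) (W X).as) : StandardB D H X := by
  let V : Cls 𝒜 := genCls T (BMotives D H Q) ⟨_, _, hL.point.1, hL.point.2, rfl⟩
  have h' : Null V.prop (W X).as := h
  obtain ⟨e⟩ := hL.motive X hX
  exact b_of_gen hL hX (null_cpx.mp (h'.of_iso e))

end Pool.Agent.H79.WC
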