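import Pool.Agent.H89.L.Y116_UV_Defs

/-!
# Products of schemes over a field: definition
-/

set_option autoImplicit false

open CategoryTheory AlgebraicGeometry Pool.Agent.Y116.UV

namespace Pool.Agent.H79.WC

/-- The product of two schemes over `k`. -/
noncomputable def pr {k : Type} [Field k] (X Y : Sch k) : Sch k :=
  Over.mk (Limits.pullback.fst X.hom Y.hom ≫ X.hom)

end Pool.Agent.H79.WC
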