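import Pool.Agent.H79.WC.Pr
import Pool.Agent.H89.L.Z125_UN_Dim2

/-!
# Products of schemes over a field
-/

set_option autoImplicit false

open CategoryTheory CategoryTheory.Limits AlgebraicGeometry Pool.Agent.Y116.UV

namespace Pool.Agent.H79.WC

section

variable {k : Type} [Field k]

/-- the map induced on products by a map of the first factors -/
noncomputable def prL {X X' : Sch k} (f : X ⟶ X') (Y : Sch k) :
    pullback X.hom Y.hom ⟶ pullback X'.hom Y.hom :=
  pullback.map X.hom Y.hom X'.hom Y.hom f.left (𝟙 _) (𝟙 _)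
    (by rw [Category.comp_id]; exact (Over.w f).symm) (by rw [Category.comp_id, Category.id_comp])

lemma prL_fst {X X' : Sch k} (f : X ⟶ X') (Y : Sch k) :
    prL f Y ≫ pullback.fst X'.hom Y.hom = pullback.fst X.hom Y.hom ≫ f.left :=
  pullback.lift_fst _ _ _

lemma prL_snd {X X' : Sch k} (f : X ⟶ X') (Y : Sch k) :
    prL f Y ≫ pullback.snd X'.hom Y.hom = pullback.snd X.hom Y.hom :=
  (pullback.lift_snd _ _ _).trans (Category.comp_id _)

/-- the map induced on products by a map of the first factors -/
noncomputable def prMap {X X' : Sch k} (f : X ⟶ X') (Y : Sch k) : pr X Y ⟶ pr X' Y :=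
  Over.homMk (prL f Y) (by
    change prL f Y ≫ pullback.fst X'.hom Y.hom ≫ X'.hom = pullback.fst X.hom Y.hom ≫ X.hom
    rw [← Category.assoc, prL_fst, Category.assoc, Over.w f])

lemma prL_pullback {X X' : Sch k} (f : X ⟶ X') (Y : Sch k) :
    IsPullback (pullback.fst X.hom Y.hom) (prL f Y) f.left (pullback.fst X'.hom Y.hom) := by
  have h1 : IsPullback (pullback.fst X'.hom Y.hom) (pullback.snd X'.hom Y.hom) X'.hom Y.hom :=
    IsPullback.of_hasPullback _ _
  have h2 : IsPullback (pullback.fst X.hom Y.hom) (prL f Y ≫ pullback.snd X'.hom Y.hom)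
      (f.left ≫ X'.hom) Y.hom := by
    rw [prL_snd, Over.w f]
    exact IsPullback.of_hasPullback _ _
  exact (IsPullback.of_right h2.flip (prL_fst f Y) h1.flip).flip

lemma range_of_pullback {P X Y Z : Scheme.{0}} {a : P ⟶ X} {b : P ⟶ Y} {f : X ⟶ Z} {g : Y ⟶ Z}
    (h : IsPullback a b f g) : Set.range b = g ⁻¹' Set.range f := by
  have h1 : Set.range (pullback.snd f g) = g ⁻¹' Set.range f := Scheme.Pullback.range_snd f g
  have h2 : Function.Surjective h.isoPullback.hom := h.isoPullback.hom.surjective
  rw [← h1, ← h.isoPullback_hom_snd]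
  ext y
  constructor
  · rintro ⟨x, rfl⟩
    exact ⟨h.isoPullback.hom x, rfl⟩
  · rintro ⟨x, rfl⟩
    obtain ⟨x, rfl⟩ := h2 x
    exact ⟨x, rfl⟩

lemma prMap_open {X X' : Sch k} (f : X ⟶ X') (Y : Sch k) (h : IsOpenImmersion f.left) :
    IsOpenImmersion (prMap f Y).left :=
  MorphismProperty.of_isPullback (P := @IsOpenImmersion) (prL_pullback f Y) h

lemma prMap_closed {X X' : Sch k} (f : X ⟶ X') (Y : Sch k) (h : IsClosedImmersion f.left) :
    IsClosedImmersion (prMap f Y).left :=
  MorphismProperty.of_isPullback (P := @IsClosedImmersion) (prL_pullback f Y) h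

lemma prMap_range {X X' : Sch k} (f : X ⟶ X') (Y : Sch k) :
    Set.range (prMap f Y).left = (pullback.fst X'.hom Y.hom) ⁻¹' Set.range f.left :=
  range_of_pullback (prL_pullback f Y)

lemma prMap_triple {Z X U : Sch k} {i : Z ⟶ X} {j : U ⟶ X} (h : IsTriple i j) (Y : Sch k) :
    IsTriple (prMap i Y) (prMap j Y) where
  closed := prMap_closed _ _ h.closed
  opened := prMap_open _ _ h.opened
  compl := by
    rw [prMap_range, prMap_range, h.compl, Set.preimage_compl]
    rfl

/-- isomorphisms of the first factors -/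
lemma prIso {X X' : Sch k} (e : Nonempty (X ≅ X')) (Y : Sch k) : Nonempty (pr X Y ≅ pr X' Y) := by
  obtain ⟨e⟩ := e
  have h : IsIso e.hom.left := inferInstance
  have h1 : IsIso (prMap e.hom Y).left :=
    MorphismProperty.of_isPullback (P := MorphismProperty.isomorphisms Scheme)
      (prL_pullback e.hom Y) h
  exact ⟨Over.isoMk (asIso (prMap e.hom Y).left) (Over.w _)⟩

/-- the symmetry of the product -/
lemma prSymm (X Y : Sch k) : Nonempty (pr X Y ≅ pr Y X) :=
  ⟨Over.isoMk (pullbackSymmetry X.hom Y.hom) (by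
    change (pullbackSymmetry X.hom Y.hom).hom ≫ pullback.fst Y.hom X.hom ≫ Y.hom =
      pullback.fst X.hom Y.hom ≫ X.hom
    rw [pullbackSymmetry_hom_comp_fst_assoc, pullback.condition])⟩

/-- isomorphisms of the second factors -/
lemma prIso' (X : Sch k) {Y Y' : Sch k} (e : Nonempty (Y ≅ Y')) : Nonempty (pr X Y ≅ pr X Y') := by
  obtain ⟨e1⟩ := prSymm X Y
  obtain ⟨e2⟩ := prIso e X
  obtain ⟨e3⟩ := prSymm Y' X
  exact ⟨e1 ≪≫ e2 ≪≫ e3⟩

/-- the associativity of the product -/
lemma prAssoc (X Y Z : Sch k) : Nonempty (pr (pr X Y) Z ≅ pr X (pr Y Z)) := by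
  letI := Over.cartesianMonoidalCategory (Spec (CommRingCat.of k))
  exact ⟨MonoidalCategoryStruct.associator (C := Over (Spec (CommRingCat.of k))) X Y Z⟩

lemma ft_pr {X Y : Sch k} (hX : FT True X) (hY : FT True Y) : FT True (pr X Y) where
  locallyOfFiniteType := by
    have h1 := hX.locallyOfFiniteType
    have h2 : LocallyOfFiniteType (pullback.fst X.hom Y.hom) :=
      MorphismProperty.pullback_fst _ _ hY.locallyOfFiniteType
    change LocallyOfFiniteType (pullback.fst X.hom Y.hom ≫ X.hom)
    infer_instance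
  quasiCompact := by
    have h1 := hX.quasiCompact
    have h2 : QuasiCompact (pullback.fst X.hom Y.hom) :=
      MorphismProperty.pullback_fst _ _ hY.quasiCompact
    change QuasiCompact (pullback.fst X.hom Y.hom ≫ X.hom)
    infer_instance
  separated _ := by
    have h1 := hX.separated trivial
    have h2 : IsSeparated (pullback.fst X.hom Y.hom) :=
      MorphismProperty.pullback_fst _ _ (hY.separated trivial)
    change IsSeparated (pullback.fst X.hom Y.hom ≫ X.hom)
    infer_instance

open TensorProduct in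
/-- products of affine schemes -/
noncomputable def prAff (A B : Type) [CommRing A] [CommRing B] [Algebra k A] [Algebra k B] :
    pr (aff k A) (aff k B) ≅ aff k (A ⊗[k] B) :=
  Over.isoMk (pullbackSpecIso k A B) (by
    change (pullbackSpecIso k A B).hom ≫ Spec.map (CommRingCat.ofHom (algebraMap k (A ⊗[k] B))) =
      pullback.fst (Spec.map (CommRingCat.ofHom (algebraMap k A)))
        (Spec.map (CommRingCat.ofHom (algebraMap k B))) ≫ Spec.map (CommRingCat.ofHom (algebraMap k A))
    rw [← pullbackSpecIso_hom_fst, Category.assoc, ← Spec.map_comp]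
    rfl)

/-- the product with the point -/
lemma prPoint (Y : Sch k) : Nonempty (pr (aff k k) Y ≅ Y) := by
  have h1 : IsIso (aff k k).hom := by
    change IsIso (Spec.map (CommRingCat.ofHom (algebraMap k k)))
    have : CommRingCat.ofHom (algebraMap k k) = 𝟙 (CommRingCat.of k) := rfl
    rw [this]
    infer_instance
  have h2 : IsIso (pullback.snd (aff k k).hom Y.hom) :=
    MorphismProperty.pullback_snd (P := MorphismProperty.isomorphisms Scheme) _ _ h1
  let e : pullback (aff k k).hom Y.hom ≅ Y.left := @asIso _ _ _ _ _ h2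
  exact ⟨Over.isoMk e pullback.condition.symm⟩

lemma pr_empty (X Y : Sch k) [h : IsEmpty X.left] : IsEmpty (pr X Y).left :=
  ⟨fun x => h.false ((pullback.fst X.hom Y.hom) x)⟩

end

end Pool.Agent.H79.WC
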